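import Pool.Agent.K3h8.GG.Stm2
import Pool.Agent.K3h55.GG.COS

/-!
# Brick COS2: decomposition into cosets of the stabilizer of the letter `0`, signed words
-/

set_option autoImplicit false

open Equiv (Perm swap)

namespace Pool.Agent.K3h91.GG

open Pool.Agent.K3h8.GG

variable {p k n : ℕ}

/-- `FF` is stable under the permutations of the places -/
theorem FF_act {f : (Fin n → Fin (p + 1) ⊕ Fin k) → ℚ} (hf : f ∈ FF p k n) (σ : Perm (Fin n)) :
    actA (Fin (p + 1) ⊕ Fin k) n σ f ∈ FF p k n := by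
  obtain ⟨h1, h2⟩ := hf
  refine ⟨fun π w => ?_, fun w hw j => ?_⟩
  · rw [actA_apply, actA_apply, Function.comp_assoc, h1]
  · rw [actA_apply] at hw
    obtain ⟨i, hi, hu⟩ := h2 _ hw j
    refine ⟨σ i, hi, fun i' hi' => ?_⟩
    have h3 := hu (σ.symm i') (by
      show w (σ (σ.symm i')) = Sum.inr j
      rw [Equiv.apply_symm_apply]
      exact hi')
    rw [← h3, Equiv.apply_symm_apply]

/-- the first letter is even -/
theorem FF_inl {f : (Fin (n + 1) → Fin (p + 1) ⊕ Fin k) → ℚ} (hf : f ∈ FF p k (n + 1))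
    (a : Fin (p + 1)) :
    (fun w' : Fin n → Fin (p + 1) ⊕ Fin k => f (Fin.cons (Sum.inl a) w')) ∈ FF p k n := by
  obtain ⟨h1, h2⟩ := hf
  refine ⟨fun π w => ?_, fun w hw j => ?_⟩
  · show f (Fin.cons (Sum.inl a) (Sum.map id π ∘ w)) = _ * f (Fin.cons (Sum.inl a) w)
    rw [← h1 π]
    congr 1
    funext x
    refine Fin.cases ?_ (fun i => ?_) x
    · rfl
    · rfl
  · obtain ⟨i, hi, hu⟩ := h2 _ hw j
    refine Fin.cases (motive := fun i => (Fin.cons (Sum.inl a) w :
      Fin (n + 1) → Fin (p + 1) ⊕ Fin k) i = Sum.inr j → (∀ y, (Fin.cons (Sum.inl a) w :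
      Fin (n + 1) → Fin (p + 1) ⊕ Fin k) y = Sum.inr j → y = i) → ∃! i, w i = Sum.inr j)
      ?_ (fun i => ?_) i hi hu
    · intro hi _
      rw [Fin.cons_zero] at hi
      exact absurd hi (by simp)
    · intro hi hu
      rw [Fin.cons_succ] at hi
      refine ⟨i, hi, fun y hy => ?_⟩
      exact Fin.succ_injective _ (hu y.succ (by rw [Fin.cons_succ]; exact hy))

/-- the extension of a permutation of the labels which fixes the label `j` -/
def extP (j : Fin (k + 1)) (π : Perm (Fin k)) : Perm (Fin (k + 1)) :=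
  π.extendDomain (finSuccAboveEquiv j)

theorem extP_self (j : Fin (k + 1)) (π : Perm (Fin k)) : extP j π j = j :=
  Equiv.Perm.extendDomain_apply_not_subtype _ _ (fun h => h rfl)

theorem extP_succAbove (j : Fin (k + 1)) (π : Perm (Fin k)) (l : Fin k) :
    extP j π (j.succAbove l) = j.succAbove (π l) :=
  Equiv.Perm.extendDomain_apply_image π (finSuccAboveEquiv j) l

theorem extP_sign (j : Fin (k + 1)) (π : Perm (Fin k)) :
    Equiv.Perm.sign (extP j π) = Equiv.Perm.sign π := by
  unfold extP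
  exact Equiv.Perm.sign_extendDomain π (finSuccAboveEquiv j)

theorem map_inj (j : Fin (k + 1)) :
    Function.Injective (Sum.map (id : Fin (p + 1) → Fin (p + 1)) j.succAbove) :=
  Sum.map_injective.2 ⟨Function.injective_id, Fin.succAbove_right_injective⟩

/-- the first letter is the odd letter with the label `j` -/
theorem FF_inr {f : (Fin (n + 1) → Fin (p + 1) ⊕ Fin (k + 1)) → ℚ} (hf : f ∈ FF p (k + 1) (n + 1))
    (j : Fin (k + 1)) :
    (fun w' : Fin n → Fin (p + 1) ⊕ Fin k =>
      f (Fin.cons (Sum.inr j) (Sum.map id j.succAbove ∘ w'))) ∈ FF p k n := by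
  obtain ⟨h1, h2⟩ := hf
  refine ⟨fun π w => ?_, fun w hw l => ?_⟩
  · show f (Fin.cons (Sum.inr j) (Sum.map id j.succAbove ∘ (Sum.map id π ∘ w))) =
      _ * f (Fin.cons (Sum.inr j) (Sum.map id j.succAbove ∘ w))
    rw [← extP_sign j π, ← h1 (extP j π)]
    congr 1
    funext x
    refine Fin.cases ?_ (fun i => ?_) x
    · show Sum.inr j = Sum.map id (extP j π) (Sum.inr j)
      rw [Sum.map_inr, extP_self]
    · show Sum.map id j.succAbove (Sum.map id π (w i)) =
        Sum.map id (extP j π) (Sum.map id j.succAbove (w i))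
      rcases w i with a | l
      · rfl
      · rw [Sum.map_inr, Sum.map_inr, Sum.map_inr, Sum.map_inr, extP_succAbove]
  · obtain ⟨i, hi, hu⟩ := h2 _ hw (j.succAbove l)
    refine Fin.cases (motive := fun i => (Fin.cons (Sum.inr j) (Sum.map id j.succAbove ∘ w) :
      Fin (n + 1) → Fin (p + 1) ⊕ Fin (k + 1)) i = Sum.inr (j.succAbove l) →
      (∀ y, (Fin.cons (Sum.inr j) (Sum.map id j.succAbove ∘ w) :
      Fin (n + 1) → Fin (p + 1) ⊕ Fin (k + 1)) y = Sum.inr (j.succAbove l) → y = i) →
      ∃! i, w i = Sum.inr l) ?_ (fun i => ?_) i hi hu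
    · intro hi _
      rw [Fin.cons_zero] at hi
      exact absurd (Sum.inr_injective hi).symm (Fin.succAbove_ne j l)
    · intro hi hu
      rw [Fin.cons_succ] at hi
      refine ⟨i, map_inj j hi, fun y hy => ?_⟩
      refine Fin.succ_injective _ (hu y.succ ?_)
      rw [Fin.cons_succ, Function.comp_apply, hy]
      rfl

/-- the values at a word -/
theorem up_apply {A : Type} (f : (Fin (n + 1) → A) → ℚ) (τ : Perm (Fin n)) (w : Fin (n + 1) → A) :
    actA A (n + 1) (up τ) f w = f (Fin.cons (w 0) (Fin.tail w ∘ τ)) := by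
  rw [actA_apply]
  congr 1
  funext x
  refine Fin.cases ?_ (fun i => ?_) x
  · rw [Function.comp_apply, up_zero, Fin.cons_zero]
  · rw [Function.comp_apply, up_succ, Fin.cons_succ]
    rfl

theorem inner_zero {c : Perm (Fin n) → ℚ} (hc : c ∈ Ker p n)
    {f : (Fin (n + 1) → Fin (p + 1) ⊕ Fin k) → ℚ} (hf : f ∈ FF p k (n + 1)) :
    ∑ τ : Perm (Fin n), c τ • actA (Fin (p + 1) ⊕ Fin k) (n + 1) (up τ) f = 0 := by
  funext w
  rw [Finset.sum_apply]
  have e : ∀ τ : Perm (Fin n), (c τ • actA (Fin (p + 1) ⊕ Fin k) (n + 1) (up τ) f) w =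
      c τ * f (Fin.cons (w 0) (Fin.tail w ∘ τ)) := by
    intro τ
    rw [Pi.smul_apply, up_apply, smul_eq_mul]
  rw [Finset.sum_congr rfl fun τ _ => e τ]
  rcases h0 : w 0 with a | j
  · have h1 := congrFun (hc k _ (FF_inl hf a)) (Fin.tail w)
    rw [Finset.sum_apply] at h1
    exact h1
  · rcases k with _ | k
    · exact j.elim0
    · by_cases hj : ∃ i, Fin.tail w i = Sum.inr j
      · obtain ⟨i, hi⟩ := hj
        refine Finset.sum_eq_zero fun τ _ => ?_
        have h1 : f (Fin.cons (Sum.inr j) (Fin.tail w ∘ τ)) = 0 := by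
          by_contra h2
          obtain ⟨i', hi', hu⟩ := hf.2 _ h2 j
          have h3 : 0 = i' := hu 0 rfl
          have h4 : (τ.symm i).succ = i' := hu (τ.symm i).succ (by
            show Fin.tail w (τ (τ.symm i)) = Sum.inr j
            rw [Equiv.apply_symm_apply]
            exact hi)
          rw [← h3] at h4
          exact Fin.succ_ne_zero _ h4
        rw [h1, mul_zero]
      · have h1 : ∀ i, ∃ y : Fin (p + 1) ⊕ Fin k, Sum.map id j.succAbove y = Fin.tail w i := by
          intro i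
          rcases h2 : Fin.tail w i with a | l
          · exact ⟨Sum.inl a, rfl⟩
          · have hl : l ≠ j := by
              rintro rfl
              exact hj ⟨i, h2⟩
            obtain ⟨l', hl'⟩ := Fin.exists_succAbove_eq hl
            exact ⟨Sum.inr l', by rw [Sum.map_inr, hl']⟩
        choose w' hw' using h1
        have h2 := congrFun (hc k _ (FF_inr hf j)) w'
        rw [Finset.sum_apply] at h2
        refine Eq.trans (Finset.sum_congr rfl fun τ _ => ?_) h2
        show c τ * f (Fin.cons (Sum.inr j) (Fin.tail w ∘ τ)) =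
          c τ * f (Fin.cons (Sum.inr j) (Sum.map id j.succAbove ∘ (w' ∘ τ)))
        congr 3
        funext i
        exact (hw' (τ i)).symm

/-- COS2 -/
theorem t_COS2 : S_COS2 := by
  intro p n v
  constructor
  · intro h k f hf
    rw [Pool.Agent.K3h55.GG.sum_left]
    refine Finset.sum_eq_zero fun j _ => ?_
    have h1 : ∑ τ : Perm (Fin n), v (swap 0 j * up τ) •
        actA (Fin (p + 1) ⊕ Fin k) (n + 1) (swap 0 j * up τ) f =
        actA (Fin (p + 1) ⊕ Fin k) (n + 1) (swap 0 j) (∑ τ : Perm (Fin n), v (swap 0 j * up τ) •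
          actA (Fin (p + 1) ⊕ Fin k) (n + 1) (up τ) f) := by
      rw [map_sum]
      refine Finset.sum_congr rfl fun τ _ => ?_
      rw [map_mul, map_smul]
      rfl
    rw [h1, inner_zero (h (swap 0 j)) hf, map_zero]
  · intro h k f hf
    rw [Pool.Agent.K3h55.GG.sum_right]
    refine Finset.sum_eq_zero fun j _ => ?_
    have h1 : ∑ τ : Perm (Fin n), v (up τ * swap 0 j) •
        actA (Fin (p + 1) ⊕ Fin k) (n + 1) (up τ * swap 0 j) f =
        ∑ τ : Perm (Fin n), v (up τ * swap 0 j) • actA (Fin (p + 1) ⊕ Fin k) (n + 1) (up τ)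
          (actA (Fin (p + 1) ⊕ Fin k) (n + 1) (swap 0 j) f) := by
      refine Finset.sum_congr rfl fun τ _ => ?_
      rw [map_mul]
      rfl
    rw [h1]
    exact inner_zero (h (swap 0 j)) (FF_act hf (swap 0 j))

end Pool.Agent.K3h91.GG
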